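import Pool.Agent.Helper62K9.TW.St

set_option autoImplicit false

/-!
# Relay TW, leaf [LB]: the lower bound for two-way programs
-/

namespace Pool.Agent.Helper52K9.TW

open Finset Filter Pool.Agent.Helper62K9.DV Pool.Agent.Helper62K9.TW

/-- some program accepts many stars -/
theorem exists_many {n : ℕ} {δ : ℝ} {R : Type} [Fintype R] {p : R → ℝ}
    (A : R → SimpleGraph (Fin n × Bool) → Prop) (hp : ∀ r, 0 ≤ p r) (hp1 : ∑ r, p r = 1)
    (hcomp : ∀ G ∈ matched n, vc G = n →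
      (2 : ℝ) ^ (-(δ * n)) ≤ ∑ r, Set.indicator {r | A r G} p r) :
    ∃ q, ∃ F : Finset (Fin n → Bool), (∀ σ ∈ F, A q (star σ)) ∧
      (2 : ℝ) ^ ((n : ℝ) - δ * n) ≤ F.card := by
  classical
  set 𝓕 : R → Finset (Fin n → Bool) := fun q => univ.filter fun σ => A q (star σ) with h𝓕
  set B : ℝ := (2 : ℝ) ^ ((n : ℝ) - δ * n) with hB
  obtain ⟨q, hq⟩ : ∃ q, B ≤ ((𝓕 q).card : ℝ) := by
    by_contra hcon
    push Not at hcon
    have h2 : ∑ q, p q * ((𝓕 q).card : ℝ) = ∑ σ : Fin n → Bool,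
        ∑ q, Set.indicator {q | A q (star σ)} p q := by
      rw [sum_comm]
      refine sum_congr rfl fun q _ => ?_
      rw [h𝓕]
      simp only [Set.indicator_apply, Set.mem_ofPred_eq]
      rw [← sum_filter, sum_const, nsmul_eq_mul, mul_comm]
    have h3 : B ≤ ∑ q, p q * ((𝓕 q).card : ℝ) := by
      rw [h2]
      have h4 : ∀ σ ∈ (univ : Finset (Fin n → Bool)), (2 : ℝ) ^ (-(δ * n)) ≤
          ∑ q, Set.indicator {q | A q (star σ)} p q := fun σ _ =>
        hcomp (star σ) (star_matched σ) (star_vc σ)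
      have h5 := card_nsmul_le_sum (univ : Finset (Fin n → Bool)) _ _ h4
      refine le_trans (le_of_eq ?_) h5
      rw [card_univ, Fintype.card_fun, Fintype.card_fin, Fintype.card_bool, nsmul_eq_mul, hB]
      push_cast
      rw [← Real.rpow_natCast, ← Real.rpow_add (by norm_num)]
      ring_nf
    have h4 : ∑ q, p q * ((𝓕 q).card : ℝ) < ∑ q, p q * B := by
      have hex : ∃ q, 0 < p q := by
        by_contra hcon'
        push Not at hcon'
        have : ∑ q, p q ≤ 0 := sum_nonpos fun q _ => hcon' q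
        linarith
      obtain ⟨q₀, hq₀⟩ := hex
      refine sum_lt_sum (fun q _ => mul_le_mul_of_nonneg_left (hcon q).le (hp q))
        ⟨q₀, mem_univ _, mul_lt_mul_of_pos_left (hcon q₀) hq₀⟩
    rw [← sum_mul, hp1, one_mul] at h4
    linarith
  exact ⟨q, 𝓕 q, fun σ hσ => (mem_filter.1 hσ).2, hq⟩

theorem card_pairs (n : ℕ) : Fintype.card (Sym2 (Fin n × Bool)) = n * (2 * n + 1) := by
  rw [Sym2.card, Fintype.card_prod, Fintype.card_fin, Fintype.card_bool, Nat.choose_two_right]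
  have h : (n * 2 + 1) * (n * 2 + 1 - 1) = 2 * (n * (2 * n + 1)) := by
    simp only [Nat.add_sub_cancel]
    ring
  rw [h, Nat.mul_div_cancel_left _ (by norm_num)]

/-- logarithms are small -/
theorem log_small (K : ℝ) (hK : 0 < K) : ∃ N : ℕ, ∀ n : ℕ, N ≤ n →
    K * (2 * Real.logb 2 n) ≤ n / 4 := by
  have hl2 : 0 < Real.log 2 := Real.log_pos (by norm_num)
  have h1 := Real.isLittleO_log_id_atTop.bound (c := Real.log 2 / (8 * K)) (by positivity)
  have h2 := tendsto_natCast_atTop_atTop.eventually h1 (α := ℕ)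
  obtain ⟨N, hN⟩ := eventually_atTop.1 h2
  refine ⟨N, fun n hn => ?_⟩
  have h3 := hN n hn
  simp only [id_eq, Real.norm_eq_abs] at h3
  have h4 : Real.log n ≤ Real.log 2 / (8 * K) * n := by
    refine (le_abs_self _).trans (h3.trans (le_of_eq ?_))
    rw [abs_of_nonneg (Nat.cast_nonneg n)]
  rw [← Real.log_div_log]
  have h5 : Real.log n / Real.log 2 ≤ n / (8 * K) := by
    rw [div_le_iff₀ hl2]
    calc Real.log n ≤ Real.log 2 / (8 * K) * n := h4
      _ = n / (8 * K) * Real.log 2 := by ring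
  calc K * (2 * (Real.log n / Real.log 2)) ≤ K * (2 * (n / (8 * K))) := by gcongr
    _ = n / 4 := by field_simp; ring

theorem lb (hRE : S_RE) (hCM : S_CM) : S_LB := by
  intro c hc
  classical
  set ε : ℝ := min (2 - c) 1 with hε
  have h0 : 0 < ε := lt_min (by linarith) one_pos
  have h1 : ε ≤ 1 := min_le_right _ _
  have hεc : ε ≤ 2 - c := min_le_left _ _
  set M' : ℕ := ⌈55296 / ε ^ 4⌉₊ with hM'
  have hMle : 55296 / ε ^ 4 ≤ M' := Nat.le_ceil _
  set M : ℕ := 2 * M' + 3 with hM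
  set K : ℝ := M + 1 with hK
  have hK1 : 1 ≤ K := by
    have : (0 : ℝ) ≤ M := Nat.cast_nonneg M
    linarith
  have hK0 : 0 < K := by linarith
  have hε2 : 0 < ε ^ 2 := by positivity
  have hε4 : 0 < ε ^ 4 := by positivity
  obtain ⟨N, hN⟩ := log_small (K ^ 2) (by positivity)
  set δ : ℝ := min (ε ^ 4 / (73728 * K ^ 2)) (1 / (4 * K)) with hδ
  have hδ0 : 0 < δ := lt_min (by positivity) (by positivity)
  have hδ1 : δ ≤ ε ^ 4 / (73728 * K ^ 2) := min_le_left _ _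
  have hδ2 : δ ≤ 1 / (4 * K) := min_le_right _ _
  refine ⟨δ, hδ0, max N (⌈144 / ε ^ 2⌉₊ + 1), ?_⟩
  intro n T s R _ p Q _ P hn₀ hp hp1 hQ hsound hcomp
  have hnN : N ≤ n := (le_max_left _ _).trans hn₀
  have hn2 : ⌈144 / ε ^ 2⌉₊ + 1 ≤ n := (le_max_right _ _).trans hn₀
  have hn : 144 / ε ^ 2 ≤ n := by
    have h2 : (⌈144 / ε ^ 2⌉₊ : ℝ) ≤ n := by exact_mod_cast (Nat.le_succ _).trans hn2
    exact (Nat.le_ceil _).trans h2
  have hn1 : 1 ≤ n := by omega
  have hn1' : (1 : ℝ) ≤ n := by exact_mod_cast hn1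
  obtain ⟨a, r, t, ha, hr, htr, har, hMt, hlt⟩ := numbers h0 h1 hn hMle
  have h5 : (20736 : ℝ) ≤ ε ^ 4 * (n : ℝ) ^ 2 := by
    have hn' : 144 ≤ ε ^ 2 * n := by
      rw [div_le_iff₀ hε2] at hn
      linarith
    calc (20736 : ℝ) = 144 * 144 := by norm_num
      _ ≤ (ε ^ 2 * n) * (ε ^ 2 * n) := mul_le_mul hn' hn' (by norm_num) (by positivity)
      _ = ε ^ 4 * (n : ℝ) ^ 2 := by ring
  have ht2 : 2 ≤ t := by
    have h6 : (2 : ℝ) ≤ t := by nlinarith
    exact_mod_cast h6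
  set w : ℕ := t / 2 with hw
  have hw0 : 0 < w := by omega
  have hwt : t ≤ 2 * w + 1 := by omega
  have hwt' : 2 * w ≤ t := by omega
  have hwR : ε ^ 4 / 36864 * (n : ℝ) ^ 2 ≤ w := by
    have h6 : (t : ℝ) ≤ 2 * w + 1 := by exact_mod_cast hwt
    have h7 : ε ^ 4 / 36864 * (n : ℝ) ^ 2 = (ε ^ 4 / 18432 * (n : ℝ) ^ 2) / 2 := by ring
    rw [h7]
    linarith
  have hwn : (w : ℝ) ≤ (n : ℝ) ^ 2 := by
    have har' : ((3 * n * r : ℕ) : ℝ) ≤ ((a * (a - 1) : ℕ) : ℝ) := by exact_mod_cast har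
    have h6 : ((a * (a - 1) : ℕ) : ℝ) ≤ (a : ℝ) * a := by
      push_cast
      refine mul_le_mul_of_nonneg_left ?_ (Nat.cast_nonneg a)
      exact_mod_cast Nat.sub_le a 1
    have h7 : (a : ℝ) * a ≤ n * n := by
      have : (a : ℝ) ≤ n := ha.trans (by nlinarith)
      exact mul_le_mul this this (Nat.cast_nonneg a) (Nat.cast_nonneg n)
    have h8 : (3 * n * r : ℝ) ≤ n * n := by
      push_cast at har' h6
      linarith
    have h9 : (r : ℝ) ≤ n := by
      have : (n : ℝ) * (3 * r) ≤ n * n := by linarith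
      have := le_of_mul_le_mul_left this (by linarith)
      linarith [(Nat.cast_nonneg r : (0 : ℝ) ≤ r)]
    have h10 : (2 * t : ℝ) ≤ (r : ℝ) ^ 2 := by exact_mod_cast htr
    have h11 : (2 * w : ℝ) ≤ t := by exact_mod_cast hwt'
    have h12 : (r : ℝ) ^ 2 ≤ (n : ℝ) ^ 2 := pow_le_pow_left₀ (Nat.cast_nonneg r) h9 2
    linarith [(Nat.cast_nonneg w : (0 : ℝ) ≤ w)]
  obtain ⟨q, 𝓕, h𝓕, hB⟩ := exists_many (fun r G => (P r).Accepts T (code G)) hp hp1 hcomp
  -- the windows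
  have hcard : Fintype.card (Sym2 (Fin n × Bool)) ≤ (M + 1) * w := by
    rw [card_pairs]
    have h6 : 2 * (n * (2 * n + 1)) ≤ 2 * ((M + 1) * w) := by
      refine hMt.trans ?_
      calc t * (M' + 2) ≤ (4 * w) * (M' + 2) := Nat.mul_le_mul_right _ (by omega)
        _ = 2 * ((M + 1) * w) := by rw [hM]; ring
    omega
  obtain ⟨F, hF𝓕, hFc, S, hS1, hS2, hS3⟩ := hRE (Sym2 (Fin n × Bool)) (Q q) (Fin n → Bool) (P q) T
    M w 𝓕 (fun σ => code (star σ)) hw0 hcard h𝓕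
  have hcm := hCM n a r t M F S (fun y => (P q).Accepts T y) hr htr har
    (fun k => (hS1 k).trans hwt') hS2 hS3 (fun G hG hacc => by
      have h2 := hsound q G hG hacc
      have h3 : ((vc G + a : ℕ) : ℝ) ≤ ((2 * n : ℕ) : ℝ) := by
        push_cast
        have : ε * n ≤ (2 - c) * n := mul_le_mul_of_nonneg_right hεc (by linarith)
        linarith
      exact_mod_cast h3)
  -- logarithms
  set L : ℝ := Real.logb 2 (T * s + 1) with hL
  have hTs : (0 : ℝ) ≤ T * s := by positivity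
  have hL0 : 0 ≤ L := Real.logb_nonneg (by norm_num) (by linarith)
  have hwpos : (0 : ℝ) < w := by exact_mod_cast hw0
  have hbase : ((w * (T * Fintype.card (Q q) + 1) ^ (T / w) : ℕ) : ℝ) ≤
      (2 : ℝ) ^ (Real.logb 2 w + T / w * L) := by
    rw [Real.rpow_add (by norm_num), Real.rpow_logb (by norm_num) (by norm_num) hwpos]
    push_cast
    refine mul_le_mul_of_nonneg_left ?_ hwpos.le
    have h6 : ((T : ℝ) * Fintype.card (Q q) + 1) ≤ T * s + 1 := by
      have : (Fintype.card (Q q) : ℝ) ≤ s := by exact_mod_cast hQ q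
      have := mul_le_mul_of_nonneg_left this (Nat.cast_nonneg T : (0 : ℝ) ≤ T)
      linarith
    calc ((T : ℝ) * Fintype.card (Q q) + 1) ^ (T / w) ≤ ((T : ℝ) * s + 1) ^ (T / w) :=
          pow_le_pow_left₀ (by positivity) h6 _
      _ = (2 : ℝ) ^ (((T / w : ℕ) : ℝ) * L) := by
          rw [mul_comm ((T / w : ℕ) : ℝ) L, Real.rpow_mul (by norm_num), hL,
            Real.rpow_logb (by norm_num) (by norm_num) (by linarith), Real.rpow_natCast]
      _ ≤ (2 : ℝ) ^ ((T : ℝ) / w * L) := by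
          refine Real.rpow_le_rpow_of_exponent_le (by norm_num) ?_
          exact mul_le_mul_of_nonneg_right Nat.cast_div_le hL0
  set U : ℝ := Real.logb 2 w + T / w * L with hU
  have hcm' : (F.card : ℝ) ^ (M + 1) * 2 ^ n ≤ 2 ^ (n * (M + 1)) := by exact_mod_cast hcm
  have hFc' : (𝓕.card : ℝ) ≤ ((2 : ℝ) ^ U) ^ M * F.card := by
    have h6 : (𝓕.card : ℝ) ≤
        ((w * (T * Fintype.card (Q q) + 1) ^ (T / w) : ℕ) : ℝ) ^ M * F.card := by
      exact_mod_cast hFc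
    refine h6.trans (mul_le_mul_of_nonneg_right ?_ (Nat.cast_nonneg _))
    exact pow_le_pow_left₀ (Nat.cast_nonneg _) hbase _
  have h6 : ((2 : ℝ) ^ ((n : ℝ) - δ * n)) ^ (M + 1) * 2 ^ n ≤
      (((2 : ℝ) ^ U) ^ M) ^ (M + 1) * 2 ^ (n * (M + 1)) := by
    calc ((2 : ℝ) ^ ((n : ℝ) - δ * n)) ^ (M + 1) * 2 ^ n
        ≤ (((2 : ℝ) ^ U) ^ M * F.card) ^ (M + 1) * 2 ^ n := by
          refine mul_le_mul_of_nonneg_right ?_ (by positivity)
          exact pow_le_pow_left₀ (by positivity) (hB.trans hFc') _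
      _ = (((2 : ℝ) ^ U) ^ M) ^ (M + 1) * ((F.card : ℝ) ^ (M + 1) * 2 ^ n) := by
          rw [mul_pow]; ring
      _ ≤ _ := mul_le_mul_of_nonneg_left hcm' (by positivity)
  have h7 : (2 : ℝ) ^ (((n : ℝ) - δ * n) * (M + 1) + n) ≤
      (2 : ℝ) ^ (U * (M * (M + 1)) + n * (M + 1)) := by
    have e1 : ((2 : ℝ) ^ ((n : ℝ) - δ * n)) ^ (M + 1) * 2 ^ n =
        (2 : ℝ) ^ (((n : ℝ) - δ * n) * (M + 1) + n) := by
      rw [← Real.rpow_natCast, ← Real.rpow_mul (by norm_num), ← Real.rpow_natCast 2 n,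
        ← Real.rpow_add (by norm_num)]
      push_cast
      rfl
    have e2 : (((2 : ℝ) ^ U) ^ M) ^ (M + 1) * 2 ^ (n * (M + 1)) =
        (2 : ℝ) ^ (U * (M * (M + 1)) + n * (M + 1)) := by
      rw [← pow_mul, ← Real.rpow_natCast, ← Real.rpow_mul (by norm_num), ← Real.rpow_natCast 2,
        ← Real.rpow_add (by norm_num)]
      push_cast
      rfl
    rw [← e1, ← e2]
    exact h6
  have h8 : ((n : ℝ) - δ * n) * (M + 1) + n ≤ U * (M * (M + 1)) + n * (M + 1) :=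
    (Real.rpow_le_rpow_left_iff (by norm_num)).1 h7
  have hw1 : (1 : ℝ) ≤ w := by exact_mod_cast hw0
  have hlogw : Real.logb 2 w ≤ 2 * Real.logb 2 n := by
    have h9 : Real.logb 2 w ≤ Real.logb 2 ((n : ℝ) ^ 2) :=
      Real.logb_le_logb_of_le (by norm_num) hwpos hwn
    rw [Real.logb_pow] at h9
    exact_mod_cast h9
  have hlogw0 : 0 ≤ Real.logb 2 w := Real.logb_nonneg (by norm_num) hw1
  have hU0 : 0 ≤ U := by positivity
  have h9 : (n : ℝ) ≤ δ * n * K + K ^ 2 * U := by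
    have hM0 : (0 : ℝ) ≤ M := Nat.cast_nonneg M
    have h10 : (n : ℝ) ≤ δ * n * (M + 1) + U * (M * (M + 1)) := by
      clear_value U δ
      linarith only [h8]
    have h11 : U * ((M : ℝ) * (M + 1)) ≤ K ^ 2 * U := by
      have h12 : (M : ℝ) * (M + 1) ≤ K ^ 2 := by
        have h13 : K ^ 2 = ((M : ℝ) + 1) * (M + 1) := by rw [hK]; ring
        rw [h13]
        exact mul_le_mul_of_nonneg_right (by linarith only) (by linarith only [hM0])
      calc U * ((M : ℝ) * (M + 1)) ≤ U * K ^ 2 := mul_le_mul_of_nonneg_left h12 hU0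
        _ = K ^ 2 * U := mul_comm _ _
    exact h10.trans (add_le_add (le_of_eq (by rw [hK])) h11)
  have h10 : δ * n * K ≤ n / 4 := by
    have h11 : δ * (4 * K) ≤ 1 := by
      calc δ * (4 * K) ≤ 1 / (4 * K) * (4 * K) :=
            mul_le_mul_of_nonneg_right hδ2 (by positivity)
        _ = 1 := by field_simp
    have h12 : (n : ℝ) * (δ * (4 * K)) ≤ n * 1 :=
      mul_le_mul_of_nonneg_left h11 (by linarith only [hn1'])
    linarith only [h12]
  have h11 : K ^ 2 * Real.logb 2 w ≤ n / 4 :=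
    (mul_le_mul_of_nonneg_left hlogw (by positivity)).trans (hN n hnN)
  have h12 : (n : ℝ) / 2 ≤ K ^ 2 * (T / w * L) := by
    have : K ^ 2 * U = K ^ 2 * Real.logb 2 w + K ^ 2 * (T / w * L) := by rw [hU]; ring
    linarith
  have h13 : (n : ℝ) * w ≤ 2 * K ^ 2 * (T * L) := by
    have h14 : K ^ 2 * (T / w * L) = K ^ 2 * (T * L) / w := by field_simp
    rw [h14, le_div_iff₀ hwpos] at h12
    linarith
  have h14 : (n : ℝ) * (ε ^ 4 / 36864 * (n : ℝ) ^ 2) ≤ 2 * K ^ 2 * (T * L) :=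
    (mul_le_mul_of_nonneg_left hwR (by linarith)).trans h13
  calc δ * (n : ℝ) ^ 3 ≤ ε ^ 4 / (73728 * K ^ 2) * (n : ℝ) ^ 3 :=
        mul_le_mul_of_nonneg_right hδ1 (by positivity)
    _ = (n : ℝ) * (ε ^ 4 / 36864 * (n : ℝ) ^ 2) / (2 * K ^ 2) := by field_simp; ring
    _ ≤ 2 * K ^ 2 * (T * L) / (2 * K ^ 2) := by gcongr
    _ = T * L := by field_simp

end Pool.Agent.Helper52K9.TW
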